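import Pool.Agent.Helper2.Tate.UMain

/-!
# The noncommutative Tate conjecture for cyclic coverings

Let `F` be a finite field with `q` elements, `χ` a character of order `ℓ` (a prime) of the group
of `F`, `S` a smooth projective variety of even dimension `2 e` over `F`, `f` a form of degree
divisible by `ℓ` such that `C : f = 0` is smooth on `S`, and let `Y_c`, `c` nonzero in `F`, be the
cyclic covering `w ^ ℓ = c f` of `S`. Let `Q_S`, `Q_c` be the characteristic polynomials of the
Frobenius on `H ^ (2 e)` of `S`, `Y_c` (the other cohomology groups agree), and let `E₁ / E₂` be the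
inverse of the zeta function of `S - C` (in terms of reversed polynomials).

Let `k n` be the multiplicity of the cyclotomic polynomial of order `n` in `E₁ / E₂` modulo `ℓ`, and
let `B m` be the sum of `φ(n) k(n)` over the divisors `n` of `m` which are prime to `ℓ`. The number
of eigenvalues `z` of the Frobenius on the cohomology `H ^ (2 e)` of `Y_c` with `z ^ m = q ^ (e m)`
(these are the eigenvalues for the Tate conjecture over the extension of degree `m`) is the one for
`S` plus `(ℓ - 1) N_c` with `N_c ≤ B m`, and if `m` is prime to `ℓ` then the average of the `N_c` is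
at most `(B m) / ℓ`.

So if the Tate conjecture holds for `S` over `F` then it holds in all codimensions for `Y_c` for all
`c` but at most `(B 1) (q - 1) / ℓ`; if all `k n`, `n` prime to `ℓ`, are zero then the Tate
conjecture for `S` over all extensions implies the one for all `Y_c`. If `S` is the projective space
of dimension `2 e`, `k 1 = 1`, the other `k n` are zero and `f = g₁ u₁ + ... + g_e u_e + v ^ ℓ` then
the `ℓ` cycles `g₁ = ... = g_e = 0, w = ζ v` show that the Tate conjecture holds for `Y_1` over all
extensions and in all codimensions.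
-/

set_option autoImplicit false

namespace Pool.Agent.Results.MP_de89cc_ag.CyclicCovers

open Pool.Agent.Helper2.Tate Polynomial

theorem result (F : Type) [Field F] [Fintype F] (ℓ : ℕ) (hℓ : ℓ.Prime)
    (χ : MulChar F (AlgebraicClosure ℚ)) (hχ : orderOf χ = ℓ)
    {r : ℕ} (S : Set (MvPolynomial (Fin r) F)) (f : MvPolynomial (Fin r) F)
    (E₁ E₂ QS : ℤ[X]) (Q : F → ℤ[X]) (R : (AlgebraicClosure ℚ)[X])
    (hU : IsVirtualFrob (openCount F S f) E₁ E₂)
    (hQ : ∀ c : F, c ≠ 0 → IsVirtualFrob (newCount F ℓ S (MvPolynomial.C c * f)) (Q c) QS)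
    (hR : IsLPolynomial F ℓ χ S f R) (e : ℕ) :
    ∃ (k : ℕ → ℕ) (N : F → ℕ → ℕ),
      (∀ n : ℕ, 1 ≤ n → ∀ j : ℕ,
        cyclotomic n (ZMod ℓ) ^ j * E₂.reverse.map (Int.castRingHom (ZMod ℓ)) ∣
          E₁.reverse.map (Int.castRingHom (ZMod ℓ)) ↔ j ≤ k n) ∧
      ∀ m : ℕ, 1 ≤ m →
        (∀ c : F, c ≠ 0 →
          mult (Fintype.card F ^ e) (Q c) m =
            mult (Fintype.card F ^ e) QS m + (ℓ - 1) * N c m ∧
          N c m ≤ ∑ n ∈ m.divisors.filter (fun n => ¬ ℓ ∣ n), n.totient * k n) ∧
        (¬ ℓ ∣ m → ℓ * ∑ c : F, N c m ≤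
          (Fintype.card F - 1) * ∑ n ∈ m.divisors, n.totient * k n) :=
  u_main F ℓ hℓ χ hχ S f E₁ E₂ QS Q R hU hQ hR e

end Pool.Agent.Results.MP_de89cc_ag.CyclicCovers
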