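import Pool.Agent.Helper14.TX.Final
import Pool.Agent.Helper14.TX.Powers
import Pool.Agent.Helper14.TX.Factor

/-!
# Tate classes on powers and products of elliptic surfaces

`F` is a finite field of odd characteristic with `q` elements, `a` a polynomial over `F` such that
`t a ^ 2 - 4` is irreducible, of degree `deg a = 2 M + 1`, and `Q` (`IsFrob F a Q`) the
characteristic polynomial of the Frobenius on the transcendental part of the second cohomology group
of the elliptic surface `y ^ 2 = x ^ 3 + t a x ^ 2 + t x`.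
-/

set_option autoImplicit false

open Polynomial
open Pool.Agent.Helper14.TX

namespace Pool.Agent.Results.MP_de89cc_ag.EllipticPowers

theorem result :
    -- one surface: the surface and its square; all powers
    (∀ (F : Type) [Field F] [Fintype F] (a : F[X]) (Q : ℤ[X]), (2 : F) ≠ 0 →
      Irreducible (X * a ^ 2 - 4) → IsFrob F a Q →
      (∀ m : ℕ, Nat.Coprime m (deg a) → TateSq (Fintype.card F) Q m) ∧
      ((deg a).Prime → 1 < a.natDegree → Nat.Coprime (unitRoots (ringChar F) Q) a.natDegree →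
        ∀ m : ℕ, 1 ≤ m → TateSq (Fintype.card F) Q m) ∧
      ((deg a).Prime → a.natDegree.Prime → a.natDegree ≠ 2 → ∀ v : ℂ → ℚ,
        Ordinary (Fintype.card F) Q v → (∃ β : ℂ, Root Q β ∧ v β = 1) →
        Odd {β : ℂ | Root Q β ∧ v β = 0}.ncard → TateAll (Fintype.card F) Q)) ∧
    -- products of the surfaces and their squares
    (∀ (F : Type) [Field F] [Fintype F] (K : Type) [DecidableEq K] (S₁ S₂ : Finset K)
      (a : K → F[X]) (Q : K → ℤ[X]) (α α' : K → ℂ) (k₀ : K) (m : ℕ), (2 : F) ≠ 0 →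
      Disjoint S₁ S₂ →
      (∀ k ∈ S₁ ∪ S₂, Irreducible (X * a k ^ 2 - 4) ∧ IsFrob F (a k) (Q k) ∧
        Root (Q k) (α k) ∧ Root (Q k) (α' k)) →
      (∀ j ∈ S₁ ∪ S₂, ∀ k ∈ S₁ ∪ S₂, j ≠ k → Nat.Coprime (deg (a j)) (deg (a k))) →
      (∀ k ∈ S₁ ∪ S₂, k ≠ k₀ → Nat.Coprime m (deg (a k))) → TateSq (Fintype.card F) (Q k₀) m →
      ((∏ k ∈ S₁, α k) * ∏ k ∈ S₂, (α k * α' k)) ^ m =
        (Fintype.card F : ℂ) ^ ((S₁.card + 2 * S₂.card) * m) →
      S₁ = ∅ ∧ ∀ k ∈ S₂, α k * α' k = (Fintype.card F : ℂ) ^ 2) ∧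
    -- products of surfaces with different prime degrees, all extensions
    (∀ (F : Type) [Field F] [Fintype F] (K : Type) (S : Finset K) (a : K → F[X]) (Q : K → ℤ[X])
      (α : K → ℂ) (m : ℕ), (2 : F) ≠ 0 → S.Nonempty → 1 ≤ m →
      (∀ k ∈ S, Irreducible (X * a k ^ 2 - 4) ∧ IsFrob F (a k) (Q k) ∧ Root (Q k) (α k) ∧
        (deg (a k)).Prime ∧ NotCyc (Fintype.card F) (deg (a k)) (Q k)) →
      (∀ j ∈ S, ∀ k ∈ S, j ≠ k → deg (a j) ≠ deg (a k)) →
      (∏ k ∈ S, α k) ^ m ≠ (Fintype.card F : ℂ) ^ (S.card * m)) ∧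
    -- products with arbitrary varieties: `R` is the Frobenius polynomial of a cohomology group
    (∀ (F : Type) [Field F] [Fintype F] (a : F[X]) (Q R : ℤ[X]) (m j : ℕ) (β γ : ℂ),
      (2 : F) ≠ 0 → Irreducible (X * a ^ 2 - 4) → IsFrob F a Q → (deg a).Prime → R.Monic →
      2 ^ R.natDegree ≤ deg a → TateSq (Fintype.card F) Q m → Root Q β → Root R γ →
      (β * γ) ^ m ≠ (Fintype.card F : ℂ) ^ j) ∧
    -- an explicit ordinary family
    (∀ (p : ℕ) [Fact p.Prime], p % 4 = 3 → 3 < p →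
      Irreducible (X * expl p ^ 2 - 4 : (ZMod p)[X]) ∧
      ∀ Q : ℤ[X], IsFrob (ZMod p) (expl p) Q →
        Q.map (Int.castRingHom (ZMod p)) = X ^ ((3 * p - 1) / 4) *
          ∏ j ∈ Finset.range ((p - 3) / 4),
            (X - C (Nat.choose ((p - 1) / 2) (2 * j + 1) : ZMod p)) ∧
        ∀ m : ℕ, 1 ≤ m → TateSq p Q m) ∧
    -- examples of all degrees
    (∀ (K : Type) [Fintype K] (M : K → ℕ) (N : ℕ), (∀ k, Odd (M k)) →
      ∃ (p : ℕ) (_ : Fact p.Prime) (a : K → (ZMod p)[X]), N < p ∧ (2 : ZMod p) ≠ 0 ∧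
        ∀ k, (a k).natDegree = M k ∧ IsSquare (a k).leadingCoeff ∧
          Irreducible (X * a k ^ 2 - 4)) := by
  refine ⟨?_, ?_, ?_, ?_, ?_, ?_⟩
  · intro F _ _ a Q h2 hirr hQ
    have hp : (ringChar F).Prime := CharP.char_is_prime F (ringChar F)
    have hF : Fact (ringChar F).Prime := ⟨hp⟩
    have hdvd : ringChar F ∣ Fintype.card F := ringChar.dvd (Nat.cast_card_eq_zero F)
    refine ⟨fun m hm => final_one F h2 a Q hirr hQ m hm, ?_, ?_⟩
    · intro hd h1 hu m hm
      exact final_square F h2 (ringChar F) hdvd a Q hirr hQ hd h1 hu m hm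
    · intro hd hM hM2 v hv hv1 hodd
      exact powers (Fintype.card F) (odd_card F h2) a.natDegree hM hM2 hd Q (hQ.modTwo h2 hirr)
        hQ.norm v hv hv1 hodd
  · intro F _ _ K _ S₁ S₂ a Q α α' k₀ m h2 hdisj hall hcop hm h₀ h
    exact final_products F h2 S₁ S₂ hdisj a Q (fun k hk => (hall k hk).1)
      (fun k hk => (hall k hk).2.1) hcop α α' (fun k hk => (hall k hk).2.2) m k₀ hm h₀ h
  · intro F _ _ K S a Q α m h2 hS hm hall hne
    exact final_prime F h2 S hS a Q (fun k hk => (hall k hk).1) (fun k hk => (hall k hk).2.1)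
      (fun k hk => (hall k hk).2.2.2.1) hne (fun k hk => (hall k hk).2.2.2.2) α
      (fun k hk => (hall k hk).2.2.1) m hm
  · intro F _ _ a Q R m j β γ h2 hirr hQ hd hR hb hT hβ hγ
    exact prod_factor (Fintype.card F) Fintype.card_ne_zero (deg a) hd (deg_ne_two a) Q
      (hQ.modTwo h2 hirr) R hR hb m hT.2 β γ hβ hγ j
  · intro p _ hp h3
    refine ⟨irreducible_expl p (by omega), fun Q hQ => ⟨explicit_mod p hp Q hQ, ?_⟩⟩
    intro m hm
    exact final_explicit p hp h3 Q hQ m hm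
  · intro K _ M N hM
    exact exists_dickson K M hM N

end Pool.Agent.Results.MP_de89cc_ag.EllipticPowers
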