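import Pool.Agent.Helper66.NT.Abs

/-!
# MP_de89cc_ag: multiplicative relations between Frobenius eigenvalues

`P` is an irreducible polynomial whose roots (the Frobenius eigenvalues of an abelian variety
over `𝔽_q`, with `c = q`, or the transcendental Frobenius eigenvalues of a K3 surface) are
permuted by `β ↦ c / β`.  `v` is a (normalized) valuation of the splitting field `L`, and
`w(β) = v(β) - v(c) / 2` is the deviation of the slope from the middle.
-/

open Polynomial

namespace Pool.Agent.Results.MP_de89cc_ag.FrobeniusRelations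

/-- The finite set of the roots of `P` in `L`. -/
noncomputable def roots (P : ℚ[X]) (L : Type) [Field L] [Algebra ℚ L] : Finset L :=
  (P.rootSet_finite L).toFinset

theorem mem_roots' {P : ℚ[X]} {L : Type} [Field L] [Algebra ℚ L] (hP : P ≠ 0) {β : L} :
    β ∈ roots P L ↔ aeval β P = 0 := by
  unfold roots
  rw [Set.Finite.mem_toFinset, mem_rootSet]
  exact and_iff_right hP

/-- The deviation of `v(β)` from `v(c) / 2`. -/
def dev {L : Type} [Field L] [Algebra ℚ L] (v : L → ℚ) (c : ℚ) (β : L) : ℚ :=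
  v β - v (algebraMap ℚ L c) / 2

theorem result (L : Type) [Field L] [Algebra ℚ L] [FiniteDimensional ℚ L] [IsGalois ℚ L]
    -- the polynomial and the involution on its roots
    (P : ℚ[X]) (hP : Irreducible P) (c : ℚ) (hc : c ≠ 0)
    (hsym : ∀ β ∈ roots P L, algebraMap ℚ L c / β ∈ roots P L ∧ β ^ 2 ≠ algebraMap ℚ L c)
    -- the valuation
    (v : L → ℚ) (hv : ∀ x y : L, x ≠ 0 → y ≠ 0 → v (x * y) = v x + v y)
    -- a block `B` of `2 r ^ k` conjugates, `r` prime
    (r k : ℕ) (hr : r.Prime) (B : Finset L) (hBroot : B ⊆ roots P L)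
    (hcard : B.card = 2 * r ^ k) (hBsym : ∀ β ∈ B, algebraMap ℚ L c / β ∈ B)
    (hblock : ∀ σ : L ≃ₐ[ℚ] L, ∀ β ∈ B, σ β ∈ B → ∀ γ ∈ B, σ γ ∈ B)
    -- the conditions on the slopes
    (ρ : ℚ) (hρ : 0 < ρ) (h1 : ∀ β ∈ B, padicNorm r (dev v c β) ≤ ρ)
    (h2 : ∀ β ∈ roots P L, β ∉ B → padicNorm r (dev v c β) < ρ)
    (h3 : ∀ T ⊆ B, (∀ β ∈ B, algebraMap ℚ L c / β ∈ T ↔ β ∉ T) →
      padicNorm r (∑ β ∈ T, dev v c β) = ρ)
    -- a relation
    (n : L → ℤ) (N : ℕ) (hN : N ≠ 0) (a : ℚ)
    (hrel : (∏ β ∈ roots P L, β ^ n β) ^ N = algebraMap ℚ L a) :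
    ∀ β ∈ roots P L, n β = n (algebraMap ℚ L c / β) := by
  classical
  have hPne : P ≠ 0 := hP.ne_zero
  have hfact : Fact r.Prime := ⟨hr⟩
  set c' : L := algebraMap ℚ L c with hc'
  have hc0 : c' ≠ 0 := by
    rw [hc']
    intro h
    exact hc ((map_eq_zero _).1 h)
  have hroot : ∀ β : L, β ∈ roots P L ↔ aeval β P = 0 := fun β => mem_roots' hPne
  -- the Galois group is transitive on the roots
  have htrans : ∀ x ∈ roots P L, ∀ y ∈ roots P L, ∃ σ : L ≃ₐ[ℚ] L, σ x = y := by
    intro x hx y hy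
    have e1 := minpoly.eq_of_irreducible hP ((hroot x).1 hx)
    have e2 := minpoly.eq_of_irreducible hP ((hroot y).1 hy)
    have h4 : IsConjRoot ℚ y x := by
      rw [IsConjRoot, ← e1, ← e2]
    obtain ⟨σ, hσ⟩ := isConjRoot_iff_exists_algEquiv.1 h4
    exact ⟨σ, hσ⟩
  have hstab : ∀ (σ : L ≃ₐ[ℚ] L), ∀ x ∈ roots P L, σ x ∈ roots P L := by
    intro σ x hx
    rw [hroot] at hx ⊢
    rw [Polynomial.aeval_algEquiv, AlgHom.comp_apply, hx]
    exact map_zero _
  have hne0 : ∀ β ∈ roots P L, β ≠ 0 := by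
    rintro β hβ rfl
    have h4 : roots P L ⊆ {0} := by
      intro y hy
      obtain ⟨σ, hσ⟩ := htrans 0 hβ y hy
      rw [map_zero] at hσ
      rw [Finset.mem_singleton, hσ]
    have h5 := Finset.card_le_card (hBroot.trans h4)
    have h6 : 0 < r ^ k := pow_pos hr.pos k
    rw [Finset.card_singleton, hcard] at h5
    omega
  -- the action on the roots
  let S : Type := {β : L // β ∈ roots P L}
  let G : Type := L ≃ₐ[ℚ] L
  let act : MulAction G S :=
    { smul := fun σ x => ⟨σ x.1, hstab σ x.1 x.2⟩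
      one_smul := fun x => rfl
      mul_smul := fun σ τ x => rfl }
  have hact : ∀ (σ : G) (x : S), (σ • x).1 = σ x.1 := fun _ _ => rfl
  let ι : S → S := fun x => ⟨c' / x.1, (hsym x.1 x.2).1⟩
  have hι' : ∀ x : S, (ι x).1 = c' / x.1 := fun _ => rfl
  have hι : ∀ x : S, ι (ι x) = x := by
    intro x
    apply Subtype.ext
    rw [hι', hι', div_div_cancel₀ hc0]
  have hne : ∀ x : S, ι x ≠ x := by
    intro x h
    apply (hsym x.1 x.2).2
    have h4 : c' / x.1 = x.1 := congrArg Subtype.val h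
    rw [div_eq_iff (hne0 x.1 x.2)] at h4
    rw [h4]; ring
  have hcomm : ∀ (g : G) (x : S), g • ι x = ι (g • x) := by
    intro g x
    apply Subtype.ext
    rw [hact, hι', hι', hact, map_div₀, hc', AlgEquiv.commutes]
  -- the function `v`
  have hv1 : v 1 = 0 := by
    have h4 := hv 1 1 one_ne_zero one_ne_zero
    rw [mul_one] at h4
    linarith
  have hvinv : ∀ x : L, x ≠ 0 → v x⁻¹ = - v x := by
    intro x hx
    have h4 := hv x x⁻¹ hx (inv_ne_zero hx)
    rw [mul_inv_cancel₀ hx, hv1] at h4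
    linarith
  have hvpow : ∀ (x : L) (j : ℕ), x ≠ 0 → v (x ^ j) = j * v x := by
    intro x j hx
    induction j with
    | zero => rw [pow_zero, hv1]; simp
    | succ j ih =>
      rw [pow_succ, hv _ _ (pow_ne_zero j hx) hx, ih]
      push_cast; ring
  have hvzpow : ∀ (x : L) (j : ℤ), x ≠ 0 → v (x ^ j) = j * v x := by
    intro x j hx
    obtain ⟨i, rfl | rfl⟩ := j.eq_nat_or_neg
    · rw [zpow_natCast, hvpow x i hx]
      push_cast; rfl
    · rw [zpow_neg, zpow_natCast, hvinv _ (pow_ne_zero i hx), hvpow x i hx]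
      push_cast; ring
  have hvprod : ∀ (U : Finset L) (f : L → L), (∀ x ∈ U, f x ≠ 0) →
      v (∏ x ∈ U, f x) = ∑ x ∈ U, v (f x) := by
    intro U f
    induction U using Finset.induction_on with
    | empty => intro _; rw [Finset.prod_empty, Finset.sum_empty, hv1]
    | insert b U hb ih =>
      intro hf
      rw [Finset.prod_insert hb, Finset.sum_insert hb,
        hv _ _ (hf b (Finset.mem_insert_self b U))
          (Finset.prod_ne_zero_iff.2 fun x hx => hf x (Finset.mem_insert_of_mem hx)),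
        ih fun x hx => hf x (Finset.mem_insert_of_mem hx)]
  have hdev : ∀ β ∈ roots P L, dev v c (c' / β) = - dev v c β := by
    intro β hβ
    have h4 := hv (c' / β) β (div_ne_zero hc0 (hne0 β hβ)) (hne0 β hβ)
    rw [div_mul_cancel₀ _ (hne0 β hβ)] at h4
    unfold dev
    rw [← hc']
    linarith
  let w : S → ℚ := fun x => dev v c x.1
  have hw' : ∀ x : S, w x = dev v c x.1 := fun _ => rfl
  have hw : ∀ x, w (ι x) = - w x := fun x => hdev x.1 x.2
  -- the relation
  have ha0 : algebraMap ℚ L a ≠ 0 := by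
    rw [← hrel]
    exact pow_ne_zero N (Finset.prod_ne_zero_iff.2 fun x hx => zpow_ne_zero _ (hne0 x hx))
  have hlin : ∀ g : G, (N : ℚ) * ∑ x ∈ roots P L, (n x : ℚ) * v (g x) =
      v (algebraMap ℚ L a) := by
    intro g
    have h4 := congrArg g hrel
    rw [map_pow, map_prod, AlgEquiv.commutes] at h4
    have hgne : ∀ x ∈ roots P L, g x ≠ 0 := fun x hx => hne0 _ (hstab g x hx)
    have h5 : ∏ x ∈ roots P L, g (x ^ n x) = ∏ x ∈ roots P L, (g x) ^ n x :=
      Finset.prod_congr rfl fun x _ => map_zpow₀ g x (n x)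
    rw [h5] at h4
    rw [← h4, hvpow _ N (Finset.prod_ne_zero_iff.2 fun x hx => zpow_ne_zero _ (hgne x hx)),
      hvprod _ _ fun x hx => zpow_ne_zero _ (hgne x hx)]
    congr 1
    exact Finset.sum_congr rfl fun x hx => (hvzpow (g x) (n x) (hgne x hx)).symm
  have hN0 : (N : ℚ) ≠ 0 := by exact_mod_cast hN
  let n' : S → ℤ := fun x => n x.1
  have hfinG : Fintype G := Fintype.ofFinite G
  -- the sums `∑ n x * w (g x)` do not depend on `g`
  obtain ⟨K, hK⟩ : ∃ K : ℚ, ∀ g : G, ∑ x : S, (n' x : ℚ) * w (g • x) = K := by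
    refine ⟨v (algebraMap ℚ L a) / N - (∑ x : S, (n' x : ℚ)) * (v c' / 2), fun g => ?_⟩
    have h4 : ∑ x : S, (n' x : ℚ) * v (g x.1) = v (algebraMap ℚ L a) / N := by
      rw [eq_div_iff hN0, ← hlin g, mul_comm]
      congr 1
      exact Finset.sum_coe_sort (roots P L) fun x => (n x : ℚ) * v (g x)
    rw [← h4, Finset.sum_mul, ← Finset.sum_sub_distrib]
    refine Finset.sum_congr rfl fun x _ => ?_
    rw [hw', hact]
    unfold dev
    rw [← hc']
    ring
  have hcardG : (Fintype.card G : ℚ) ≠ 0 := by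
    exact_mod_cast Fintype.card_ne_zero
  have hK0 : K = 0 := by
    have h4 : ∑ g : G, ∑ x : S, (n' x : ℚ) * w (g • x) = Fintype.card G * K := by
      simp only [hK, Finset.sum_const, Finset.card_univ, nsmul_eq_mul]
    rw [Finset.sum_comm] at h4
    have h5 : ∀ x : S, ∑ g : G, (n' x : ℚ) * w (g • x) = 0 := by
      intro x
      rw [← Finset.mul_sum]
      obtain ⟨τ, hτ⟩ := htrans x.1 x.2 (ι x).1 (ι x).2
      have hτ' : τ • x = ι x := Subtype.ext hτ
      have h6 : ∑ g : G, w (g • x) = ∑ g : G, w (g • ι x) := by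
        refine (Fintype.sum_equiv (Equiv.mulRight τ) _ _ fun g => ?_).symm
        show w (g • ι x) = w ((g * τ) • x)
        rw [mul_smul, hτ']
      have h7 : ∑ g : G, w (g • ι x) = - ∑ g : G, w (g • x) := by
        rw [← Finset.sum_neg_distrib]
        refine Finset.sum_congr rfl fun g _ => ?_
        rw [hcomm, hw]
      have h8 : ∑ g : G, w (g • x) = 0 := by linarith
      rw [h8, mul_zero]
    simp only [h5, Finset.sum_const_zero] at h4
    exact (mul_eq_zero.1 h4.symm).resolve_left hcardG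
  let m₀ : S → ℤ := fun x => n' x - n' (ι x)
  have hm₀ : m₀ = 0 := by
    refine Pool.Agent.Helper66.NT.relation_zero (G := G) (S := S) (ι := ι) (r := r) (k := k)
      hι hne hcomm (fun x y => ?_) {x | x.1 ∈ B} (fun x hx => hBsym x.1 hx)
      (fun g x hx hgx y hy => hblock g x.1 hx hgx y.1 hy) ?_ w hw hρ
      (fun x hx => h1 x.1 hx) (fun x hx => h2 x.1 x.2 hx) ?_ m₀ ?_ ?_
    · obtain ⟨σ, hσ⟩ := htrans x.1 x.2 y.1 y.2
      exact ⟨σ, Subtype.ext hσ⟩
    · rw [← hcard]
      have h4 : Nat.card {x : S | x.1 ∈ B} = Nat.card B := by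
        refine Nat.card_congr
          { toFun := fun x => ⟨x.1.1, x.2⟩
            invFun := fun y => ⟨⟨y.1, hBroot y.2⟩, y.2⟩
            left_inv := fun x => rfl
            right_inv := fun y => rfl }
      rw [h4, Nat.card_eq_fintype_card, Fintype.card_coe]
    · intro T hTB hT
      have h4 := h3 (T.map ⟨Subtype.val, Subtype.val_injective⟩) ?_ ?_
      · rw [Finset.sum_map] at h4
        exact h4
      · intro x hx
        rw [Finset.mem_map] at hx
        obtain ⟨y, hy, rfl⟩ := hx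
        exact hTB y hy
      · intro x hx
        have h5 : ∀ y (hy : y ∈ roots P L),
            y ∈ T.map ⟨Subtype.val, Subtype.val_injective⟩ ↔ (⟨y, hy⟩ : S) ∈ T := by
          intro y hy
          rw [Finset.mem_map]
          constructor
          · rintro ⟨z, hz, h⟩
            have : z = ⟨y, hy⟩ := Subtype.ext h
            rwa [← this]
          · intro h
            exact ⟨⟨y, hy⟩, h, rfl⟩
        rw [h5 x (hBroot hx), h5 _ (hsym x (hBroot hx)).1]
        exact hT ⟨x, hBroot hx⟩ hx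
    · intro x
      show n' (ι x) - n' (ι (ι x)) = -(n' x - n' (ι x))
      rw [hι]; ring
    · intro g
      have h4 : ∑ x : S, ((m₀ x : ℤ) : ℚ) * w (g • x) =
          ∑ x : S, (n' x : ℚ) * w (g • x) - ∑ x : S, (n' (ι x) : ℚ) * w (g • x) := by
        rw [← Finset.sum_sub_distrib]
        refine Finset.sum_congr rfl fun x _ => ?_
        show ((n' x - n' (ι x) : ℤ) : ℚ) * w (g • x) = _
        push_cast; ring
      have h5 : ∑ x : S, (n' (ι x) : ℚ) * w (g • x) = - ∑ x : S, (n' x : ℚ) * w (g • x) := by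
        rw [← Finset.sum_neg_distrib]
        refine Finset.sum_bij' (fun x _ => ι x) (fun x _ => ι x) (fun _ _ => Finset.mem_univ _)
          (fun _ _ => Finset.mem_univ _) (fun x _ => hι x) (fun x _ => hι x) fun x _ => ?_
        rw [hcomm, hw]
        ring
      rw [h4, h5, hK, hK0]
      ring
  intro β hβ
  have h4 : m₀ ⟨β, hβ⟩ = 0 := congrFun hm₀ ⟨β, hβ⟩
  have h5 : n β - n (c' / β) = 0 := h4
  linarith

end Pool.Agent.Results.MP_de89cc_ag.FrobeniusRelations
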